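import Mathlib

namespace Pool.Agent.H.MP_b3f678_an

open Filter Topology Polynomial WithZero Matrix

lemma uconst {T β : Type*} (U : Ultrafilter T) (f : T → β) {s : Set β} (hs : s.Finite)
    (h : ∀ᶠ t in U, f t ∈ s) : ∃ b ∈ s, ∀ᶠ t in U, f t = b := by
  obtain ⟨b, hb, e⟩ := Ultrafilter.eq_pure_of_finite_mem (f := U.map f) hs h
  refine ⟨b, hb, ?_⟩
  have : {b} ∈ U.map f := by rw [e]; simp
  exact this

lemma cluster {K L T ι : Type*} [Field K] [AddCommGroup L] [Module K L] (u : K) (hu : u ≠ 0)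
    (U : Ultrafilter T) (k : ι → T → ℤ) (h : ι → L) (s : Finset ι) :
    ∃ (s' : Finset ι) (h' : ι → L), s' ⊆ s ∧
      (∀ᶠ t in U, ∑ i ∈ s, u ^ k i t • h i = ∑ i ∈ s', u ^ k i t • h' i) ∧
      ∀ i ∈ s', ∀ j ∈ s', i ≠ j → Tendsto (fun t => |k i t - k j t|) U atTop := by
  classical
  induction s using Finset.induction_on with
  | empty => exact ⟨∅, h, subset_rfl, by simp, by simp⟩
  | insert a s ha ih =>
    obtain ⟨s', h', hs, e, ht⟩ := ih
    by_cases hc : ∀ j ∈ s', Tendsto (fun t => |k a t - k j t|) U atTop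
    · have ha' : a ∉ s' := fun h => ha (hs h)
      refine ⟨insert a s', Function.update h' a (h a), Finset.insert_subset_insert _ hs, ?_, ?_⟩
      · filter_upwards [e] with t e
        rw [Finset.sum_insert ha, Finset.sum_insert ha', e, Function.update_self]
        congr 1
        exact Finset.sum_congr rfl fun i hi => by
          rw [Function.update_of_ne (ne_of_mem_of_not_mem hi ha')]
      · intro i hi j hj hij
        rcases Finset.mem_insert.1 hi with hi | hi <;> rcases Finset.mem_insert.1 hj with hj | hj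
        · exact absurd (hi.trans hj.symm) hij
        · exact hi ▸ hc j hj
        · exact hj ▸ (hc i hi).congr fun t => abs_sub_comm _ _
        · exact ht i hi j hj hij
    · push Not at hc
      obtain ⟨j, hj, hc⟩ := hc
      rw [tendsto_atTop] at hc
      push Not at hc
      obtain ⟨B, hB⟩ := hc
      have hB' : ∀ᶠ t in U, k a t - k j t ∈ Set.Icc (-B) B :=
        hB.mono fun t h => abs_le.1 h.le
      obtain ⟨d, -, hd⟩ := uconst U _ (Set.finite_Icc _ _) hB'
      refine ⟨s', Function.update h' j (h' j + u ^ d • h a), hs.trans (Finset.subset_insert _ _),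
        ?_, ht⟩
      filter_upwards [e, hd] with t e hd
      rw [Finset.sum_insert ha, e, ← Finset.add_sum_erase _ _ hj, ← Finset.add_sum_erase _ _ hj,
        Function.update_self, smul_add, smul_smul, ← zpow_add₀ hu,
        show k j t + d = k a t by omega, Finset.sum_congr rfl fun i hi => by
          rw [← Function.update_of_ne (Finset.ne_of_mem_erase hi) (h' j + u ^ d • h a) h']]
      abel

lemma tendsto_toNat_atTop' : Tendsto Int.toNat atTop atTop :=
  tendsto_atTop_atTop.2 fun b => ⟨b, fun a h => by omega⟩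

lemma two_zpow : Tendsto (fun n : ℤ => (2 : ℝ) ^ n) atTop atTop := by
  refine ((tendsto_pow_atTop_atTop_of_one_lt (one_lt_two (α := ℝ))).comp
    tendsto_toNat_atTop').congr' ?_
  filter_upwards [eventually_ge_atTop 0] with t ht
  simp only [Function.comp]
  rw [← zpow_natCast, Int.toNat_of_nonneg ht]

lemma vnorm {K L T ι : Type*} [Field K] [Field L] [Algebra K L] [FiniteDimensional K L]
    (f : AbsoluteValue K ℝ) (u : K) (hu : f u < 1) (l : Filter T) (s : Finset ι) (h0 : L)
    (h : ι → L) (G : ι → T → ℤ) (hG : ∀ j ∈ s, Tendsto (G j) l atTop) :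
    Tendsto (fun t => f (Algebra.norm K (h0 + ∑ j ∈ s, u ^ G j t • h j))) l
      (𝓝 (f (Algebra.norm K h0))) := by
  classical
  letI : NormedField K := f.toNormedField
  let b := Module.finBasis K L
  have h1 : ∀ j ∈ s, Tendsto (fun t => u ^ G j t) l (𝓝 0) := by
    intro j hj
    have := (tendsto_pow_atTop_nhds_zero_of_norm_lt_one (x := u) hu).comp
      (tendsto_toNat_atTop'.comp (hG j hj))
    refine this.congr' ?_
    filter_upwards [(hG j hj).eventually_ge_atTop 0] with t ht
    simp only [Function.comp]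
    rw [← zpow_natCast, Int.toNat_of_nonneg ht]
  have h2 : Tendsto (fun t => Algebra.leftMulMatrix b h0 +
      ∑ j ∈ s, u ^ G j t • Algebra.leftMulMatrix b (h j)) l
      (𝓝 (Algebra.leftMulMatrix b h0 + ∑ j ∈ s, (0 : K) • Algebra.leftMulMatrix b (h j))) :=
    tendsto_const_nhds.add (tendsto_finset_sum _ fun j hj => (h1 j hj).smul_const _)
  simp only [zero_smul, Finset.sum_const_zero, add_zero] at h2
  have h3 := (((continuous_id (X := Matrix _ _ K)).matrix_det.tendsto _).comp h2).norm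
  simp only [Algebra.norm_eq_matrix_det b, map_add, map_sum, map_smul]
  exact h3

noncomputable def absv {K : Type*} [Field K] (v : Valuation K ℤᵐ⁰) : AbsoluteValue K ℝ where
  toFun x := WithZeroMulInt.toNNReal (e := 2) two_ne_zero (v x)
  map_mul' x y := by simp
  nonneg' x := NNReal.coe_nonneg _
  eq_zero' x := by simp
  add_le' x y := by
    have hm := (WithZeroMulInt.toNNReal_strictMono (e := 2) one_lt_two).monotone
    rcases le_max_iff.1 (v.map_add x y) with h | h
    · exact le_add_of_le_of_nonneg (by exact_mod_cast hm h) (NNReal.coe_nonneg _)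
    · exact le_add_of_nonneg_of_le (NNReal.coe_nonneg _) (by exact_mod_cast hm h)

lemma absv_exp {K : Type*} [Field K] (v : Valuation K ℤᵐ⁰) (x : K) (n : ℤ) (h : v x = exp n) :
    absv v x = 2 ^ n := by
  show ((WithZeroMulInt.toNNReal (e := 2) two_ne_zero (v x) : NNReal) : ℝ) = _
  rw [h, WithZeroMulInt.toNNReal_neg_apply _ exp_ne_zero]
  push_cast
  rfl

lemma two_abs (F : Type*) [Field F] : ∃ f g : AbsoluteValue (RatFunc F) ℝ,
    f RatFunc.X = 2⁻¹ ∧ g RatFunc.X = 2 ∧ ∀ c : F, c ≠ 0 →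
      f (RatFunc.C c) = 1 ∧ g (RatFunc.C c) = 1 := by
  classical
  refine ⟨absv ((idealX F).valuation (RatFunc F)), absv (RatFunc.inftyValuation F), ?_, ?_,
    fun c hc => ⟨?_, ?_⟩⟩
  · rw [absv_exp _ _ _ (valuation_X_eq_neg_one F)]; norm_num
  · rw [absv_exp _ _ _ (RatFunc.inftyValuation.X F)]; norm_num
  · rw [absv_exp _ _ 0]
    · norm_num
    · have h0 : ∀ c : F, (idealX F).valuation (RatFunc F) (RatFunc.C c) ≤ 1 := fun c => by
        rw [← RatFunc.algebraMap_C]; exact (idealX F).valuation_le_one (C c)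
      have h1 := h0 c
      have h2 := h0 c⁻¹
      rw [map_inv₀, map_inv₀] at h2
      have h3 : (idealX F).valuation (RatFunc F) (RatFunc.C c) ≠ 0 := by simpa using hc
      exact le_antisymm h1 ((inv_le_one₀ (zero_lt_iff.2 h3)).1 h2)
  · rw [absv_exp _ _ 0 (RatFunc.inftyValuation.C F hc)]; norm_num

lemma scalar {F L V : Type*} [Field F] [Field L] [Algebra (RatFunc F) L]
    [FiniteDimensional (RatFunc F) L] [Finite V] [Zero V] (lam a : L) (ha : a ≠ 0) (hl : lam ≠ 0)
    (c0 : F) (hc0 : c0 ≠ 0) (j : ℤ)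
    (hN : Algebra.norm (RatFunc F) lam = RatFunc.C c0 * RatFunc.X ^ j) (g : V → L)
    (c : ℕ → ℤ →₀ V) (r : ℕ) (hinf : {t | (c t).support.card ≤ r}.Infinite)
    (heq : ∀ t, a * lam ^ t = ∑ k ∈ (c t).support, (RatFunc.X : RatFunc F) ^ k • g (c t k)) :
    ∃ s, 0 < s ∧ ∃ j : ℤ, lam ^ s = algebraMap (RatFunc F) L (RatFunc.X ^ j) := by
  classical
  have hX : (RatFunc.X : RatFunc F) ≠ 0 := RatFunc.X_ne_zero
  set u : RatFunc F := RatFunc.X
  have : (cofinite ⊓ 𝓟 {t | (c t).support.card ≤ r}).NeBot := hinf.cofinite_inf_principal_neBot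
  let U := Ultrafilter.of (cofinite ⊓ 𝓟 {t | (c t).support.card ≤ r})
  have hU : (U : Filter ℕ) ≤ _ := Ultrafilter.of_le _
  have hU1 : (U : Filter ℕ) ≤ atTop := by
    rw [← Nat.cofinite_eq_atTop]; exact hU.trans inf_le_left
  have hU2 : ∀ᶠ t in U, (c t).support.card ∈ Set.Iic r :=
    le_principal_iff.1 (hU.trans inf_le_right)
  obtain ⟨m, -, hm⟩ := uconst U _ (Set.finite_Iic r) hU2
  let k : Fin m → ℕ → ℤ := fun i t =>
    if h : (c t).support.card = m then ((c t).support.equivFinOfCardEq h).symm i else 0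
  have hw : ∀ i, ∃ w, ∀ᶠ t in U, c t (k i t) = w := fun i => by
    obtain ⟨w, -, h⟩ := uconst U (fun t => c t (k i t)) Set.finite_univ (by simp)
    exact ⟨w, h⟩
  choose w hw using hw
  obtain ⟨s, h, -, e, ht⟩ := cluster u hX U k (fun i => g (w i)) Finset.univ
  have e1 : ∀ᶠ t in U, a * lam ^ t = ∑ i ∈ s.filter (h · ≠ 0), u ^ k i t • h i := by
    filter_upwards [e, hm, eventually_all.2 hw] with t e hm hw
    rw [heq, Finset.sum_filter_of_ne (p := (h · ≠ 0)) (f := fun i => u ^ k i t • h i)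
      fun i _ hi h0 => hi (by simp only [h0, smul_zero]), ← e,
      ← Finset.sum_coe_sort, ← ((c t).support.equivFinOfCardEq hm).symm.sum_comp]
    refine Finset.sum_congr rfl fun i _ => ?_
    rw [← hw i]
    simp only [k, dif_pos hm]
  have ht' : ∀ i ∈ s.filter (h · ≠ 0), ∀ j ∈ s.filter (h · ≠ 0), i ≠ j →
      Tendsto (fun t => |k i t - k j t|) U atTop := fun i hi j hj =>
    ht i (Finset.mem_filter.1 hi).1 j (Finset.mem_filter.1 hj).1
  have hh : ∀ i ∈ s.filter (h · ≠ 0), h i ≠ 0 := fun i hi => (Finset.mem_filter.1 hi).2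
  generalize s.filter (h · ≠ 0) = s at e1 ht' hh
  have hne : s.Nonempty := by
    obtain ⟨t, ht⟩ := e1.exists
    rw [Finset.nonempty_iff_ne_empty]
    rintro rfl
    exact mul_ne_zero ha (pow_ne_zero _ hl) (by simpa using ht)
  choose p hp hp' using fun t => s.exists_min_image (k · t) hne
  choose q hq hq' using fun t => s.exists_max_image (k · t) hne
  obtain ⟨i0, hi0, h0⟩ := uconst U p s.finite_toSet (Eventually.of_forall hp)
  obtain ⟨i1, hi1, h1⟩ := uconst U q s.finite_toSet (Eventually.of_forall hq)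
  have g0 : ∀ j ∈ s.erase i0, Tendsto (fun t => k j t - k i0 t) U atTop := fun j hj => by
    refine (ht' j (Finset.mem_of_mem_erase hj) i0 hi0 (Finset.ne_of_mem_erase hj)).congr' ?_
    filter_upwards [h0] with t h0
    exact abs_of_nonneg (sub_nonneg.2 (h0 ▸ hp' t j (Finset.mem_of_mem_erase hj)))
  have g1 : ∀ j ∈ s.erase i1, Tendsto (fun t => k i1 t - k j t) U atTop := fun j hj => by
    refine (ht' i1 hi1 j (Finset.mem_of_mem_erase hj) (Finset.ne_of_mem_erase hj).symm).congr' ?_
    filter_upwards [h1] with t h1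
    exact abs_of_nonneg (sub_nonneg.2 (h1 ▸ hq' t j (Finset.mem_of_mem_erase hj)))
  have hi : i0 = i1 := by
    by_contra hi
    obtain ⟨f, f', hf, hf', hC⟩ := two_abs F
    change f u = _ at hf
    change f' u = _ at hf'
    have t0 := vnorm f u (by rw [hf]; norm_num) (U : Filter ℕ) (s.erase i0) (h i0) h
      (fun j t => k j t - k i0 t) g0
    have t1 := vnorm f' u⁻¹ (by rw [map_inv₀, hf']; norm_num) (U : Filter ℕ) (s.erase i1)
      (h i1) h (fun j t => k i1 t - k j t) g1
    have hpos : 0 < f (Algebra.norm (RatFunc F) (h i0)) * f' (Algebra.norm (RatFunc F) (h i1)) :=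
      mul_pos (f.pos (Algebra.norm_ne_zero_iff.2 (hh _ hi0)))
        (f'.pos (Algebra.norm_ne_zero_iff.2 (hh _ hi1)))
    have he : 0 < Module.finrank (RatFunc F) L := Module.finrank_pos
    have t2 : Tendsto (fun t => ((2 : ℝ) ^ (k i1 t - k i0 t)) ^ Module.finrank (RatFunc F) L) U
        atTop := (tendsto_pow_atTop he.ne').comp (two_zpow.comp
          (g0 i1 (Finset.mem_erase.2 ⟨Ne.symm hi, hi1⟩)))
    have t3 := t2.atTop_mul_pos hpos (t0.mul t1)
    refine not_tendsto_atTop_of_tendsto_nhds (tendsto_const_nhds (x := f (Algebra.norm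
      (RatFunc F) a) * f' (Algebra.norm (RatFunc F) a))) (t3.congr' ?_)
    filter_upwards [e1] with t e1
    have a0 : a * lam ^ t = algebraMap _ L (u ^ k i0 t) *
        (h i0 + ∑ j ∈ s.erase i0, u ^ (k j t - k i0 t) • h j) := by
      rw [e1, ← Finset.add_sum_erase _ _ hi0, ← Algebra.smul_def, smul_add, Finset.smul_sum]
      congr 1
      refine Finset.sum_congr rfl fun j _ => ?_
      rw [smul_smul, ← zpow_add₀ hX]; congr 2; ring
    have a1 : a * lam ^ t = algebraMap _ L (u ^ k i1 t) *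
        (h i1 + ∑ j ∈ s.erase i1, u⁻¹ ^ (k i1 t - k j t) • h j) := by
      rw [e1, ← Finset.add_sum_erase _ _ hi1, ← Algebra.smul_def, smul_add, Finset.smul_sum]
      congr 1
      refine Finset.sum_congr rfl fun j _ => ?_
      rw [smul_smul, _root_.inv_zpow', ← zpow_add₀ hX]; congr 2; ring
    have b0 := congrArg (fun z => f (Algebra.norm (RatFunc F) z)) a0
    have b1 := congrArg (fun z => f' (Algebra.norm (RatFunc F) z)) a1
    simp only [map_mul, Algebra.norm_algebraMap] at b0 b1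
    simp only [map_mul, map_pow, hN, map_zpow₀, hf, hf', (hC _ hc0).1,
      (hC _ hc0).2, one_mul] at b0 b1
    have b2 : ((2 : ℝ)⁻¹ ^ j) ^ t * (2 ^ j) ^ t = 1 := by
      rw [← mul_pow, ← mul_zpow]; norm_num
    have b3 : ((2 : ℝ) ^ (k i1 t - k i0 t)) = 2⁻¹ ^ k i0 t * 2 ^ k i1 t := by
      rw [_root_.inv_zpow', ← zpow_add₀ two_ne_zero]; congr 1; ring
    rw [b3, mul_pow, mul_mul_mul_comm, ← b0, ← b1, mul_mul_mul_comm, b2, mul_one]
  subst hi
  have hs : s.erase i0 = ∅ := Finset.eq_empty_of_forall_notMem fun j hj => by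
    obtain ⟨t, h1, h2⟩ := (((g0 j hj).eventually_gt_atTop 0).and
      ((g1 j hj).eventually_gt_atTop 0)).exists
    omega
  have e2 : ∀ᶠ t in U, a * lam ^ t = algebraMap _ L (u ^ k i0 t) * h i0 := by
    filter_upwards [e1] with t e1
    rw [e1, ← Finset.add_sum_erase _ _ hi0, hs, Finset.sum_empty, add_zero, Algebra.smul_def]
  obtain ⟨t1, e3⟩ := e2.exists
  obtain ⟨t2, e4, h12⟩ := (e2.and (hU1 (eventually_gt_atTop t1))).exists
  refine ⟨t2 - t1, by omega, k i0 t2 - k i0 t1, ?_⟩
  refine mul_left_cancel₀ (mul_ne_zero ha (pow_ne_zero t1 hl)) ?_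
  rw [mul_assoc, ← pow_add, Nat.add_sub_cancel' h12.le, e3, e4, mul_right_comm, ← map_mul,
    ← zpow_add₀ hX, add_sub_cancel]

end Pool.Agent.H.MP_b3f678_an
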