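import Pool.Agent.H.MP_b3f678_an.A

namespace Pool.Agent.H.MP_b3f678_an

open Filter Polynomial Matrix Module Finsupp

noncomputable def sh {V : Type*} [AddCommMonoid V] (j : ℤ) (c : ℤ →₀ V) : ℤ →₀ V :=
  c.mapDomain (· + j)

lemma sh_single {V : Type*} [AddCommMonoid V] (j k : ℤ) (v : V) :
    sh j (single k v) = single (k + j) v := mapDomain_single

lemma sh_add {V : Type*} [AddCommMonoid V] (j : ℤ) (c c' : ℤ →₀ V) :
    sh j (c + c') = sh j c + sh j c' := mapDomain_add

lemma sh_zero {V : Type*} [AddCommMonoid V] (j : ℤ) : sh j (0 : ℤ →₀ V) = 0 := mapDomain_zero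

lemma eig {O E : Type*} [Field O] [IsAlgClosed O] [AddCommGroup E] [Module O E]
    [FiniteDimensional O E] (f : End O E) (x : E) (hx : x ≠ 0) :
    ∃ (g : O[X]) (l : O), aeval f g x ≠ 0 ∧ f (aeval f g x) = l • aeval f g x := by
  let W : Submodule O E := LinearMap.range (LinearMap.applyₗ x ∘ₗ (aeval f).toLinearMap)
  have hW : ∀ y ∈ W, f y ∈ W := by
    rintro _ ⟨g, rfl⟩
    exact ⟨X * g, by simp⟩
  have : Nontrivial W := ⟨⟨⟨x, 1, by simp⟩, 0, fun h => hx (congrArg Subtype.val h)⟩⟩
  obtain ⟨l, hl⟩ := End.exists_eigenvalue (f.restrict hW)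
  obtain ⟨⟨_, g, rfl⟩, hy⟩ := hl.exists_hasEigenvector
  exact ⟨g, l, fun h => hy.2 (Subtype.ext h), congrArg Subtype.val hy.apply_eq_smul⟩

lemma intg {R O n : Type*} [CommRing R] [Field O] [Algebra R O] [Fintype n] [DecidableEq n]
    (P : Matrix n n R) (y : n → O) (hy : y ≠ 0) (l : O)
    (h : P.map (algebraMap R O) *ᵥ y = l • y) : IsIntegral R l := by
  refine ⟨P.charpoly, P.charpoly_monic, ?_⟩
  rw [← eval_map, ← charpoly_map, eval_charpoly, ← exists_mulVec_eq_zero_iff]
  refine ⟨y, hy, ?_⟩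
  rw [sub_mulVec, h, scalar_apply, ← smul_one_eq_diagonal, smul_mulVec, one_mulVec, sub_self]

variable {F V : Type*} [Field F] [AddCommGroup V] [Module F V] {d : ℕ} (b : Basis (Fin d) F V)

noncomputable def lin : V →ₗ[F] Fin d → RatFunc F :=
  LinearMap.pi fun i => Algebra.linearMap F (RatFunc F) ∘ₗ b.coord i

noncomputable def io : (ℤ →₀ V) →ₗ[F] Fin d → RatFunc F :=
  lsum F fun k => (RatFunc.X : RatFunc F) ^ k • lin b

lemma io_single (k : ℤ) (v : V) : io b (single k v) = (RatFunc.X : RatFunc F) ^ k • lin b v := by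
  simp [io]

lemma lin_b (j : Fin d) : lin b (b j) = Pi.single j 1 := by
  ext i
  by_cases h : i = j
  · subst h; simp [lin]
  · simp [lin, h, Finsupp.single_apply, Ne.symm h]

lemma io_sh (j : ℤ) (c : ℤ →₀ V) : io b (sh j c) = (RatFunc.X : RatFunc F) ^ j • io b c := by
  induction c using Finsupp.induction_linear with
  | zero => simp [sh_zero]
  | add c c' h h' => rw [sh_add, map_add, map_add, h, h', smul_add]
  | single k v =>
    rw [sh_single, io_single, io_single, smul_smul, ← zpow_add₀ RatFunc.X_ne_zero, add_comm]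

noncomputable def mat (T : (ℤ →₀ V) →ₗ[F] ℤ →₀ V) : Matrix (Fin d) (Fin d) (RatFunc F) :=
  of fun i j => io b (T (single 0 (b j))) i

lemma io_T (T : (ℤ →₀ V) →ₗ[F] ℤ →₀ V) (hT : ∀ j c, T (sh j c) = sh j (T c)) (c : ℤ →₀ V) :
    io b (T c) = mat b T *ᵥ io b c := by
  have : io b ∘ₗ T = ((mat b T).mulVecLin.restrictScalars F) ∘ₗ io b := by
    refine lhom_ext' fun k => b.ext fun j => ?_
    simp only [LinearMap.comp_apply, lsingle_apply, LinearMap.restrictScalars_apply,
      mulVecLin_apply]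
    rw [io_single, lin_b, mulVec_smul, mulVec_single_one, ← zero_add k, ← sh_single, hT, io_sh,
      zero_add]
    rfl
  exact LinearMap.congr_fun this c

lemma io_poly (c : ℤ →₀ V) : ∀ᶠ C : ℕ in atTop, ∀ i,
    (RatFunc.X : RatFunc F) ^ C * io b c i ∈ (algebraMap F[X] (RatFunc F)).range := by
  induction c using Finsupp.induction_linear with
  | zero => simp
  | add c c' h h' =>
    filter_upwards [h, h'] with C h h' i
    rw [map_add, Pi.add_apply, mul_add]
    exact add_mem (h i) (h' i)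
  | single k v =>
    filter_upwards [eventually_ge_atTop (-k).toNat] with n hn i
    refine ⟨X ^ (n + k).toNat * C (b.repr v i), ?_⟩
    rw [io_single, map_mul, map_pow, RatFunc.algebraMap_X, RatFunc.algebraMap_C, ← zpow_natCast,
      Int.toNat_of_nonneg (by omega), zpow_add₀ RatFunc.X_ne_zero, zpow_natCast, mul_assoc]
    simp [lin]

lemma mat_poly (T : (ℤ →₀ V) →ₗ[F] ℤ →₀ V) : ∀ᶠ C : ℕ in atTop,
    ∃ P : Matrix (Fin d) (Fin d) F[X],
      P.map (algebraMap F[X] (RatFunc F)) = (RatFunc.X : RatFunc F) ^ C • mat b T := by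
  filter_upwards [eventually_all.2 fun j => io_poly b (T (single 0 (b j)))] with C h
  choose P hP using h
  exact ⟨of fun i j => P j i, by ext i j; simp [hP, mat]⟩

lemma io_surj (w : Fin d → F[X]) : ∃ c, io b c = fun i => algebraMap F[X] (RatFunc F) (w i) := by
  have : ∀ (i : Fin d) (p : F[X]), ∃ c, io b c = Pi.single i (algebraMap F[X] (RatFunc F) p) := by
    intro i p
    induction p using Polynomial.induction_on' with
    | add p q hp hq =>
      obtain ⟨c, hc⟩ := hp
      obtain ⟨c', hc'⟩ := hq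
      exact ⟨c + c', by rw [map_add, hc, hc', map_add, Pi.single_add]⟩
    | monomial n a =>
      refine ⟨single n (a • b i), ?_⟩
      rw [io_single, map_smul, lin_b, ← Pi.single_smul, ← Pi.single_smul, ← C_mul_X_pow_eq_monomial,
        map_mul, map_pow, RatFunc.algebraMap_X, RatFunc.algebraMap_C]
      simp [Algebra.smul_def, mul_comm]
  choose c hc using this
  refine ⟨∑ i, c i (w i), ?_⟩
  rw [map_sum]
  simp only [hc]
  exact Finset.univ_sum_single _

lemma io_inj (c : ℤ →₀ V) (h : io b c = 0) : c = 0 := by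
  letI : Algebra (RatFunc F) (LaurentSeries F) := RatFunc.liftAlgebra F _
  have : ∀ (c : ℤ →₀ V) i k, (algebraMap (RatFunc F) (LaurentSeries F) (io b c i)).coeff k =
      b.repr (c k) i := by
    intro c i k
    induction c using Finsupp.induction_linear with
    | zero => simp
    | add c c' h h' => simp [h, h']
    | single j v =>
      have e : algebraMap (RatFunc F) (LaurentSeries F) (io b (single j v) i) =
          HahnSeries.single j (b.repr v i) := by
        rw [io_single, Pi.smul_apply, smul_eq_mul, map_mul, map_zpow₀,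
          show algebraMap (RatFunc F) (LaurentSeries F) RatFunc.X = HahnSeries.single 1 1 from
            RatFunc.coe_X, ← RatFunc.single_zpow,
          show lin b v i = algebraMap F[X] (RatFunc F) (C (b.repr v i)) from
            (RatFunc.algebraMap_C _).symm,
          ← IsScalarTower.algebraMap_apply, Polynomial.algebraMap_hahnSeries_apply, Polynomial.coe_C,
          HahnSeries.ofPowerSeries_C, HahnSeries.C_apply, HahnSeries.single_mul_single]
        simp
      rw [e]
      by_cases h : k = j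
      · subst h; simp
      · simp [h, HahnSeries.coeff_single_of_ne h]
  ext k
  refine b.ext_elem fun i => ?_
  rw [← this, h]; simp

lemma norm_mono {L : Type*} [Field L] [Algebra (RatFunc F) L] [Algebra F[X] L]
    [IsScalarTower F[X] (RatFunc F) L] [FiniteDimensional (RatFunc F) L] (l : L) (hl : l ≠ 0)
    (n : ℕ) (h1 : IsIntegral F[X] (algebraMap (RatFunc F) L (RatFunc.X ^ n) * l))
    (h2 : IsIntegral F[X] (algebraMap (RatFunc F) L (RatFunc.X ^ n) * l⁻¹)) :
    ∃ c : F, c ≠ 0 ∧ ∃ j : ℤ, Algebra.norm (RatFunc F) l = RatFunc.C c * RatFunc.X ^ j := by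
  obtain ⟨p, hp⟩ := IsIntegrallyClosed.isIntegral_iff.1 (Algebra.isIntegral_norm (RatFunc F) h1)
  obtain ⟨q, hq⟩ := IsIntegrallyClosed.isIntegral_iff.1 (Algebra.isIntegral_norm (RatFunc F) h2)
  rw [map_mul, Algebra.norm_algebraMap, ← pow_mul] at hp hq
  generalize n * finrank (RatFunc F) L = m at hp hq
  have h3 : p * q = X ^ (m + m) := by
    refine RatFunc.algebraMap_injective F ?_
    rw [map_mul, hp, hq, mul_mul_mul_comm, ← map_mul, mul_inv_cancel₀ hl, map_one, mul_one,
      map_pow, RatFunc.algebraMap_X, pow_add]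
  obtain ⟨i, -, w, hw⟩ := (dvd_prime_pow prime_X _).1 ⟨q, h3.symm⟩
  obtain ⟨c, hc, e⟩ := Polynomial.isUnit_iff.1 w.isUnit
  have h4 := congrArg (algebraMap F[X] (RatFunc F)) hw
  rw [map_mul, hp, ← e, map_pow, RatFunc.algebraMap_X, RatFunc.algebraMap_C] at h4
  have h5 : RatFunc.C c ≠ 0 := by simpa using hc.ne_zero
  have h6 : (RatFunc.X : RatFunc F) ≠ 0 := RatFunc.X_ne_zero
  refine ⟨c⁻¹, inv_ne_zero hc.ne_zero, (i : ℤ) - m, ?_⟩
  rw [zpow_sub₀ h6, zpow_natCast, zpow_natCast, ← h4, map_inv₀]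
  field_simp

theorem core [Finite V] (T : (ℤ →₀ V) ≃ₗ[F] ℤ →₀ V) (hT : ∀ j c, T (sh j c) = sh j (T c))
    (x : ℤ →₀ V) (hx : x ≠ 0) (r : ℕ) (hinf : {t | (T^[t] x).support.card ≤ r}.Infinite) :
    ∃ y : ℤ →₀ V, y ≠ 0 ∧ ∃ s, 0 < s ∧ ∃ j, T^[s] y = sh j y := by
  classical
  have : Module.Finite F V := Module.Finite.of_finite
  let b := Module.finBasis F V
  let O := AlgebraicClosure (RatFunc F)
  let φ := algebraMap (RatFunc F) O
  have hφ : Function.Injective φ := φ.injective
  have hT' : ∀ j c, T.symm (sh j c) = sh j (T.symm c) := fun j c => by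
    rw [LinearEquiv.symm_apply_eq, hT, LinearEquiv.apply_symm_apply]
  set A := mat b T.toLinearMap
  set A' := mat b T.symm.toLinearMap
  have hA : ∀ c, io b (T c) = A *ᵥ io b c := io_T b T.toLinearMap hT
  have hA' : ∀ c, io b (T.symm c) = A' *ᵥ io b c := io_T b T.symm.toLinearMap hT'
  have hAA : A' * A = 1 := by
    ext i j
    have := hA' (T (single 0 (b j)))
    rw [LinearEquiv.symm_apply_apply, hA, mulVec_mulVec, io_single, lin_b, zpow_zero, one_smul,
      mulVec_single_one] at this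
    rw [← col_apply (A' * A), ← this, Pi.single_apply, one_apply]
  have hAt : ∀ t c, io b (T^[t] c) = A ^ t *ᵥ io b c := fun t c => by
    induction t with
    | zero => simp
    | succ t ih => rw [Function.iterate_succ_apply', hA, ih, mulVec_mulVec, pow_succ']
  let f : End O (Fin _ → O) := toLin' (A.map φ)
  have hf : ∀ t c, (f ^ t) (φ ∘ io b c) = φ ∘ io b (T^[t] c) := fun t c => by
    rw [hAt, ← toLin'_pow, toLin'_apply, ← Matrix.map_pow]
    ext i
    exact (RingHom.map_mulVec φ _ _ i).symm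
  obtain ⟨g, l, hy, hl⟩ := eig f (φ ∘ io b x) fun h => hx (io_inj b x (by
    ext i; exact hφ ((congrFun h i).trans (map_zero φ).symm)))
  set y := aeval f g (φ ∘ io b x) with hy'
  have hl1 : A.map φ *ᵥ y = l • y := hl
  have hl2 : l • (A'.map φ *ᵥ y) = y := by
    rw [← mulVec_smul, ← hl1, mulVec_mulVec, ← Matrix.map_mul, hAA]; simp
  have hl0 : l ≠ 0 := by rintro rfl; exact hy (by rw [← hl2, zero_smul])
  have hlt : ∀ t, (f ^ t) y = l ^ t • y := fun t => by
    induction t with
    | zero => simp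
    | succ t ih => rw [pow_succ, End.mul_apply, hl, map_smul, ih, smul_smul, pow_succ']
  obtain ⟨i, hi⟩ := Function.ne_iff.1 hy
  let G : V → O := fun v => aeval f g (φ ∘ lin b v) i
  have hG : ∀ t, y i * l ^ t = ∑ k ∈ (T^[t] x).support,
      (RatFunc.X : RatFunc F) ^ k • G ((T^[t] x) k) := fun t => by
    have e1 : aeval f g ((f ^ t) (φ ∘ io b x)) = l ^ t • y := by
      rw [← hlt, hy', ← End.mul_apply, ← End.mul_apply, ← aeval_X_pow (R := O), ← map_mul,
        ← map_mul, mul_comm]
    have e2 : ∀ c, φ ∘ io b c = ∑ k ∈ c.support, φ (RatFunc.X ^ k) • (φ ∘ lin b (c k)) := by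
      intro c
      ext i
      simp [io, Finsupp.sum]
    rw [mul_comm, ← smul_eq_mul, ← Pi.smul_apply, ← e1, hf, e2, map_sum, Finset.sum_apply]
    refine Finset.sum_congr rfl fun k _ => ?_
    rw [map_smul, Pi.smul_apply, smul_eq_mul, Algebra.smul_def]
  let L := IntermediateField.adjoin (RatFunc F) (insert l (Set.range G))
  have : Finite (insert l (Set.range G) : Set O) := ((Set.finite_range G).insert l).to_subtype
  have : FiniteDimensional (RatFunc F) L := IntermediateField.finiteDimensional_adjoin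
    fun x _ => Algebra.IsIntegral.isIntegral x
  have hGL : ∀ v, G v ∈ L := fun v =>
    IntermediateField.subset_adjoin _ _ (Or.inr ⟨v, rfl⟩)
  have hlL : l ∈ L := IntermediateField.subset_adjoin _ _ (Or.inl rfl)
  have hyL : y i ∈ L := by
    have := hG 0
    rw [pow_zero, mul_one] at this
    rw [this]
    exact sum_mem fun k _ => L.smul_mem (hGL _)
  have hl0' : (⟨l, hlL⟩ : L) ≠ 0 := fun h => hl0 (congrArg Subtype.val h)
  obtain ⟨n, ⟨P, hP⟩, P', hP'⟩ := ((mat_poly b T.toLinearMap).and
    (mat_poly b T.symm.toLinearMap)).exists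
  have hmap : ∀ (P : Matrix _ _ F[X]) (B : Matrix _ _ (RatFunc F)) (m : O),
      P.map (algebraMap F[X] (RatFunc F)) = (RatFunc.X : RatFunc F) ^ n • B →
      B.map φ *ᵥ y = m • y → IsIntegral F[X] (φ (RatFunc.X ^ n) * m) := fun P B m h1 h2 => by
    refine intg P y hy _ ?_
    rw [IsScalarTower.algebraMap_eq F[X] (RatFunc F) O, RingHom.coe_comp, ← Matrix.map_map, h1,
      mul_smul, ← h2, ← smul_mulVec]
    congr 1
    ext a a'
    simp [φ]
  have : IsScalarTower F[X] L O := IsScalarTower.of_algebraMap_eq fun _ => rfl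
  obtain ⟨c0, hc0, j, hN⟩ := norm_mono (F := F) (⟨l, hlL⟩ : L) hl0' n
    ((isIntegral_algebraMap_iff (algebraMap L O).injective).1 (hmap P A l hP hl1))
    ((isIntegral_algebraMap_iff (algebraMap L O).injective).1 (hmap P' A' l⁻¹ hP'
      (by rw [eq_inv_smul_iff₀ hl0, hl2])))
  obtain ⟨s, hs, j, e⟩ := scalar (⟨l, hlL⟩ : L) ⟨y i, hyL⟩ (fun h => hi (congrArg Subtype.val h))
    hl0' c0 hc0 j hN (fun v => ⟨G v, hGL v⟩) (fun t => T^[t] x) r hinf fun t => Subtype.ext (by
      simpa using hG t)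
  have e' : l ^ s = φ (RatFunc.X ^ j) := congrArg Subtype.val e
  have hdet : (A ^ s - (RatFunc.X : RatFunc F) ^ j • 1).det = 0 := by
    refine hφ ?_
    rw [map_zero, RingHom.map_det, ← exists_mulVec_eq_zero_iff]
    refine ⟨y, hy, ?_⟩
    have := hlt s
    rw [← toLin'_pow, toLin'_apply] at this
    rw [map_sub, map_pow, sub_mulVec, RingHom.mapMatrix_apply, this, e', sub_eq_zero,
      ← one_mulVec y, ← smul_mulVec, one_mulVec]
    congr 1
    ext a a'
    by_cases h : a = a' <;> simp [h, one_apply]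
  obtain ⟨z, hz, hz'⟩ := exists_mulVec_eq_zero_iff.2 hdet
  obtain ⟨m, hm⟩ := IsLocalization.exist_integer_multiples_of_finite (nonZeroDivisors F[X]) z
  choose w hw using hm
  obtain ⟨c, hc⟩ := io_surj b w
  have hm0 : algebraMap F[X] (RatFunc F) m ≠ 0 := by simp
  have hc' : io b c = algebraMap F[X] (RatFunc F) m • z := by
    rw [hc]; ext a; rw [hw, Algebra.smul_def]; rfl
  refine ⟨c, ?_, s, hs, j, sub_eq_zero.1 (io_inj b _ ?_)⟩
  · rintro rfl
    exact smul_ne_zero hm0 hz (by rw [← hc', map_zero])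
  · rw [map_sub, hAt, io_sh, ← one_mulVec (io b c), ← smul_mulVec, one_mulVec, ← sub_mulVec, hc',
      mulVec_smul, hz', smul_zero]

theorem alg {G : Type*} [AddCommGroup G] [Finite G] (T : (ℤ →₀ G) ≃+ (ℤ →₀ G))
    (hT : ∀ j c, T (sh j c) = sh j (T c)) (x : ℤ →₀ G) (hx : x ≠ 0) (r : ℕ)
    (hinf : {t | (T^[t] x).support.card ≤ r}.Infinite) :
    ∃ y : ℤ →₀ G, y ≠ 0 ∧ ∃ R, ∀ t, (T^[t] y).support.card ≤ R := by
  classical
  have hfin : IsOfFinAddOrder x := isOfFinAddOrder_iff_nsmul_eq_zero.2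
    ⟨Nat.card G, Nat.card_pos, by ext k; simp⟩
  have hn : addOrderOf x ≠ 1 := by simpa using hx
  have hp := Nat.minFac_prime hn
  obtain ⟨m, hm⟩ := Nat.minFac_dvd (addOrderOf x)
  generalize (addOrderOf x).minFac = p at hp hm
  have hm0 : 0 < m := Nat.pos_of_ne_zero (by rintro rfl; exact hfin.addOrderOf_pos.ne' hm)
  have hx1 : m • x ≠ 0 := nsmul_ne_zero_of_lt_addOrderOf hm0.ne' (by
    rw [hm]; exact lt_mul_left hm0 hp.one_lt)
  have hx2 : p • m • x = 0 := by rw [← mul_nsmul', ← hm, addOrderOf_nsmul_eq_zero]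
  have := Fact.mk hp
  let V : AddSubgroup G := (nsmulAddMonoidHom p : G →+ G).ker
  letI : Module (ZMod p) V := AddCommGroup.zmodModule fun v => Subtype.ext v.2
  let e : (ℤ →₀ V) →+ (ℤ →₀ G) := mapRange.addMonoidHom V.subtype
  have he : Function.Injective e := mapRange_injective _ (map_zero _) V.subtype_injective
  have hr : ∀ c : ℤ →₀ G, p • c = 0 → ∃ c', e c' = c := fun c hc =>
    ⟨onFinset c.support (fun k => ⟨c k, DFunLike.congr_fun hc k⟩) fun k hk =>
      mem_support_iff.2 fun h => hk (Subtype.ext h), by ext k; rfl⟩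
  have hr' : ∀ c, p • e c = 0 := fun c => by ext k; exact (c k).2
  have hsh : ∀ j c, e (sh j c) = sh j (e c) := fun j c => by
    induction c using Finsupp.induction_linear with
    | zero => simp [sh_zero]
    | add c c' h h' => rw [sh_add, map_add, map_add, h, h', sh_add]
    | single k v => simp [sh_single, e]
  have hl : ∀ S : (ℤ →₀ G) →+ (ℤ →₀ G), ∃ S' : (ℤ →₀ V) →+ (ℤ →₀ V), ∀ c, e (S' c) = S (e c) := by
    intro S
    choose f hf using fun c => hr (S (e c)) (by rw [← map_nsmul, hr', map_zero])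
    exact ⟨AddMonoidHom.mk' f fun a b => he (by simp only [hf, map_add]), hf⟩
  obtain ⟨S, hS⟩ := hl T
  obtain ⟨S', hS'⟩ := hl T.symm
  let T' : (ℤ →₀ V) ≃ₗ[ZMod p] ℤ →₀ V := LinearEquiv.ofLinear (S.toZModLinearMap p)
    (S'.toZModLinearMap p) (LinearMap.ext fun c => he (by simp [hS, hS']))
    (LinearMap.ext fun c => he (by simp [hS, hS']))
  have hT1 : ∀ c, e (T' c) = T (e c) := hS
  have hT2 : ∀ t c, e (T'^[t] c) = T^[t] (e c) := fun t c => by
    induction t with
    | zero => rfl
    | succ t ih => rw [Function.iterate_succ_apply', Function.iterate_succ_apply', hT1, ih]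
  have hT3 : ∀ t c, T^[t] (m • c) = m • T^[t] c := fun t c => by
    induction t with
    | zero => rfl
    | succ t ih => rw [Function.iterate_succ_apply', Function.iterate_succ_apply', ih, map_nsmul]
  have hT4 : ∀ t j c, T^[t] (sh j c) = sh j (T^[t] c) := fun t j c => by
    induction t with
    | zero => rfl
    | succ t ih => rw [Function.iterate_succ_apply', Function.iterate_succ_apply', ih, hT]
  obtain ⟨x', hx'⟩ := hr _ hx2
  obtain ⟨y, hy, s, hs, j, h⟩ := core T' (fun j c => he (by rw [hT1, hsh, hsh, hT, hT1])) x'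
    (by rintro rfl; exact hx1 (by rw [← hx', map_zero])) r (hinf.mono fun t ht => by
      refine le_trans (Finset.card_le_card fun k hk => ?_) ht
      rw [Finsupp.mem_support_iff] at hk ⊢
      intro h0
      have := DFunLike.congr_fun (hT2 t x') k
      rw [hx', hT3, Finsupp.smul_apply, h0, smul_zero] at this
      exact hk (Subtype.ext this))
  refine ⟨e y, fun h => hy (he (h.trans (map_zero e).symm)),
    ∑ t ∈ Finset.range s, (T^[t] (e y)).support.card, fun t => ?_⟩
  induction t using Nat.strong_induction_on with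
  | _ t ih =>
  by_cases ht : t < s
  · exact Finset.single_le_sum (f := fun t => (T^[t] (e y)).support.card)
      (fun _ _ => Nat.zero_le _) (Finset.mem_range.2 ht)
  · refine le_trans ?_ (ih (t - s) (by omega))
    conv_lhs => rw [show t = t - s + s by omega, Function.iterate_add_apply, ← hT2 s, h, hsh, hT4]
    exact (Finset.card_le_card mapDomain_support).trans Finset.card_image_le

end Pool.Agent.H.MP_b3f678_an
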